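import Pool.Agent.Y354.DC3.Stm

set_option autoImplicit false

/-! Project DC3, job CO: disjoint copies. -/

open Finset
open scoped Classical

namespace Pool.Agent.Y901.DC3

open Pool.Agent.Y354.DC3

theorem I_and {a b p : Prop} [Decidable a] [Decidable b] : I (a ∧ b ∧ p) = if a then (if b then I p else 0) else 0 := by
  unfold I
  by_cases ha : a <;> by_cases hb : b <;> by_cases hp : p <;> simp [ha, hb, hp]

theorem dg_copy {V : Type} [Fintype V] (μ : V → ℝ) (N : V → V → V → Prop) (s : ℕ)
    (w : V × Fin s) : dg (fun z : V × Fin s => μ z.1 / s) (NC N s) w = dg μ N w.1 / s ^ 2 := by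
  unfold dg
  rw [Fintype.sum_prod_type, Finset.sum_div]
  refine Finset.sum_congr rfl fun v _ => ?_
  have h1 : ∀ c : Fin s, ∑ u' : V × Fin s, μ v / s * (μ u'.1 / s) * I (NC N s (v, c) u' w) =
      if c = w.2 then (∑ u, μ v * μ u * I (N v u w.1)) / s ^ 2 else 0 := by
    intro c
    rw [Fintype.sum_prod_type, Finset.sum_div]
    by_cases hc : c = w.2
    · rw [if_pos hc]
      refine Finset.sum_congr rfl fun u _ => ?_
      have h2 : ∀ d : Fin s, μ v / s * (μ u / s) * I (NC N s (v, c) (u, d) w) =
          if c = d then μ v * μ u * I (N v u w.1) / s ^ 2 else 0 := by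
        intro d
        have h3 : I (NC N s (v, c) (u, d) w) =
            if c = d then (if d = w.2 then I (N v u w.1) else 0) else 0 := I_and
        rw [h3]
        by_cases h4 : c = d
        · rw [if_pos h4, if_pos h4, if_pos (h4 ▸ hc)]
          ring
        · rw [if_neg h4, if_neg h4, mul_zero]
      simp only [h2]
      rw [Finset.sum_ite_eq]
      simp
    · rw [if_neg hc]
      refine Finset.sum_eq_zero fun u _ => Finset.sum_eq_zero fun d _ => ?_
      have h3 : I (NC N s (v, c) (u, d) w) =
          if c = d then (if d = w.2 then I (N v u w.1) else 0) else 0 := I_and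
      rw [h3]
      by_cases h4 : c = d
      · rw [if_pos h4, if_neg (fun h => hc (h4.trans h)), mul_zero]
      · rw [if_neg h4, mul_zero]
  simp only [h1]
  rw [Finset.sum_ite_eq']
  simp

/-- Disjoint copies. -/
theorem s_co : S_CO := by
  intro V _ μ N hN hμ t ht a ha s hs
  have hs0 : (0 : ℝ) < s := by exact_mod_cast hs
  refine ⟨⟨?_, ?_⟩, ⟨?_, ?_⟩, ?_, ?_, ?_⟩
  · rintro x y z ⟨h1, h2, h3⟩
    exact ⟨h1.symm, h1.trans h2, hN.1 _ _ _ h3⟩
  · rintro x y z ⟨h1, h2, h3⟩
    exact ⟨h1.trans h2, h2.symm, hN.2 _ _ _ h3⟩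
  · intro z
    exact div_nonneg (hμ.1 _) hs0.le
  · rw [Fintype.sum_prod_type]
    have h1 : ∀ v : V, ∑ c : Fin s, μ v / (s : ℝ) = μ v := by
      intro v
      rw [Finset.sum_const, Finset.card_univ, Fintype.card_fin, nsmul_eq_mul]
      field_simp
    simp only [h1]
    exact hμ.2
  · intro w hw
    rw [dg_copy]
    have h1 : 0 < μ w.1 := by
      have := mul_pos hw hs0
      rwa [div_mul_cancel₀ _ hs0.ne'] at this
    exact div_le_div_of_nonneg_right (ht _ h1) (by positivity)
  · obtain ⟨x, hx, hxp⟩ := ha.1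
    refine ⟨fun p => (x (finProdFinEquiv.symm p).2, (finProdFinEquiv.symm p).1), ?_, ?_⟩
    · rintro i j l hij hil hjl ⟨h1, h2, h3⟩
      have h1' : (finProdFinEquiv.symm i).1 = (finProdFinEquiv.symm j).1 := h1
      have h2' : (finProdFinEquiv.symm j).1 = (finProdFinEquiv.symm l).1 := h2
      refine hx _ _ _ ?_ ?_ ?_ h3
      · intro h
        exact hij (finProdFinEquiv.symm.injective (Prod.ext h1' h))
      · intro h
        exact hil (finProdFinEquiv.symm.injective (Prod.ext (h1'.trans h2') h))
      · intro h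
        exact hjl (finProdFinEquiv.symm.injective (Prod.ext h2' h))
    · intro i
      exact div_pos (hxp _) hs0
  · intro z hz hInd
    obtain ⟨c, hc⟩ := Fintype.exists_lt_card_fiber_of_mul_lt_card (n := a)
      (fun p : Fin (s * a + 1) => (z p).2) (by
        rw [Fintype.card_fin, Fintype.card_fin]
        omega)
    obtain ⟨T, hT, hTc⟩ := Finset.exists_subset_card_eq (Nat.succ_le_of_lt hc)
    have hmem : ∀ i : Fin (a + 1), (z (T.orderEmbOfFin hTc i)).2 = c := by
      intro i
      have h1 := hT (Finset.orderEmbOfFin_mem T hTc i)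
      exact (Finset.mem_filter.1 h1).2
    refine ha.2 (fun i => (z (T.orderEmbOfFin hTc i)).1) ?_ ?_
    · intro i
      have h1 := mul_pos (hz (T.orderEmbOfFin hTc i)) hs0
      rwa [div_mul_cancel₀ _ hs0.ne'] at h1
    · intro i j l hij hil hjl h
      have hinj := (T.orderEmbOfFin hTc).injective
      exact hInd _ _ _ (fun h' => hij (hinj h')) (fun h' => hil (hinj h'))
        (fun h' => hjl (hinj h')) ⟨(hmem i).trans (hmem j).symm, (hmem j).trans (hmem l).symm, h⟩

end Pool.Agent.Y901.DC3
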